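import Pool.Agent.SunP.Values

set_option autoImplicit false

/-!
# MP_67f275_nt: SquareValues

At least `c N / log log log N` of the integers `n ≤ N` have a prime `p < n` with
`n - p ≤ log³ n` and `π(n - p)` a positive perfect square.
-/

namespace Pool.Agent.Results.MP_67f275_nt.SquareValues

/-- There is `c > 0` such that for all large `N` at least `c N / log log log N` of the integers
`1 ≤ n ≤ N` have a prime `p < n` with `π(n - p) = m²`, `m ≥ 1`, and `n - p ≤ (log n)³`. -/
theorem _root_.Pool.Agent.Results.MP_67f275_nt.SquareValues.result :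
    ∃ c : ℝ, 0 < c ∧ ∀ᶠ N : ℕ in Filter.atTop,
      c * N / Real.log (Real.log (Real.log N)) ≤
        ({n : ℕ | 1 ≤ n ∧ n ≤ N ∧ ∃ p m : ℕ, p.Prime ∧ p < n ∧ 1 ≤ m ∧
          Nat.primeCounting (n - p) = m ^ 2 ∧ ((n - p : ℕ) : ℝ) ≤ Real.log n ^ 3}.ncard : ℝ) := by
  obtain ⟨c, hc, h⟩ := Pool.Agent.SunP.index_shifts
  refine ⟨c, hc, ?_⟩
  filter_upwards [h] with N hN
  apply hN (fun m => m ^ 2)
  · intro m hm
    exact Nat.one_le_pow _ _ hm
  · intro m _
    exact le_refl _
  · intro m m' _ hlt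
    exact Nat.pow_lt_pow_left hlt (by norm_num)

end Pool.Agent.Results.MP_67f275_nt.SquareValues
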