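import Pool.Agent.SunP.Values

set_option autoImplicit false

/-!
# MP_67f275_nt: TriangularValues

At least `c N / log log log N` of the integers `n ≤ N` have a prime `p < n` with
`n - p ≤ log³ n` and `π(n - p)` a positive triangular number.
-/

namespace Pool.Agent.Results.MP_67f275_nt.TriangularValues

/-- There is `c > 0` such that for all large `N` at least `c N / log log log N` of the integers
`1 ≤ n ≤ N` have a prime `p < n` with `2 π(n - p) = m (m + 1)`, `m ≥ 1`, and `n - p ≤ (log n)³`. -/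
theorem _root_.Pool.Agent.Results.MP_67f275_nt.TriangularValues.result :
    ∃ c : ℝ, 0 < c ∧ ∀ᶠ N : ℕ in Filter.atTop,
      c * N / Real.log (Real.log (Real.log N)) ≤
        ({n : ℕ | 1 ≤ n ∧ n ≤ N ∧ ∃ p m : ℕ, p.Prime ∧ p < n ∧ 1 ≤ m ∧
          2 * Nat.primeCounting (n - p) = m * (m + 1) ∧
            ((n - p : ℕ) : ℝ) ≤ Real.log n ^ 3}.ncard : ℝ) := by
  obtain ⟨c, hc, h⟩ := Pool.Agent.SunP.index_shifts
  have key : ∀ m : ℕ, 2 * (m * (m + 1) / 2) = m * (m + 1) := fun m =>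
    Nat.mul_div_cancel' (Nat.even_mul_succ_self m).two_dvd
  refine ⟨c, hc, ?_⟩
  filter_upwards [h] with N hN
  refine (hN (fun m => m * (m + 1) / 2) ?_ ?_ ?_).trans ?_
  · intro m hm
    have := key m
    nlinarith
  · intro m hm
    have := key m
    nlinarith
  · intro m m' hm hlt
    have h1 := key m
    have h2 := key m'
    nlinarith
  · have hfin : {n : ℕ | 1 ≤ n ∧ n ≤ N ∧ ∃ p m : ℕ, p.Prime ∧ p < n ∧ 1 ≤ m ∧
          2 * Nat.primeCounting (n - p) = m * (m + 1) ∧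
            ((n - p : ℕ) : ℝ) ≤ Real.log n ^ 3}.Finite :=
      (Set.finite_Icc 1 N).subset fun n hn => ⟨hn.1, hn.2.1⟩
    have hsub : {n : ℕ | 1 ≤ n ∧ n ≤ N ∧ ∃ p m : ℕ, p.Prime ∧ p < n ∧ 1 ≤ m ∧
        Nat.primeCounting (n - p) = m * (m + 1) / 2 ∧ ((n - p : ℕ) : ℝ) ≤ Real.log n ^ 3} ⊆
        {n : ℕ | 1 ≤ n ∧ n ≤ N ∧ ∃ p m : ℕ, p.Prime ∧ p < n ∧ 1 ≤ m ∧
          2 * Nat.primeCounting (n - p) = m * (m + 1) ∧
            ((n - p : ℕ) : ℝ) ≤ Real.log n ^ 3} := by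
      rintro n ⟨a1, a2, p, m, a3, a4, a5, a6, a7⟩
      exact ⟨a1, a2, p, m, a3, a4, a5, by rw [a6, key], a7⟩
    exact_mod_cast Set.ncard_le_ncard hsub hfin

end Pool.Agent.Results.MP_67f275_nt.TriangularValues
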